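import Pool.Agent.Helper14.T3.StL

/-!
# Project T3, module Itr3: iteration of the leading forms, twisted path
-/

set_option autoImplicit false

namespace Pool.Agent.Helper76.T3

open Pool.Agent.Helper78.W3 Pool.Agent.Helper14.W3 Pool.Agent.Helper14.T3
open Pool.Agent.Helper14.TT (eXb)
open Pool.Agent.Helper14.CV (Homog EqC act Tl)

section lists

variable {q q' : ℕ}

private theorem opL_nil : (opL [] : Module.End (ZMod 3) (Fn3 q q')) = 0 := rfl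

private theorem opL_cons (t : Tm) (L : List Tm) : (opL (t :: L) : Module.End (ZMod 3) (Fn3 q q')) =
    ((t.1 : ℤ) : ZMod 3) • op3 t.2.1 t.2.2.1 t.2.2.2.1 t.2.2.2.2 + opL L := by
  unfold opL
  rw [List.map_cons, List.sum_cons]

private theorem opL_append (L L' : List Tm) : (opL (L ++ L') : Module.End (ZMod 3) (Fn3 q q')) = opL L + opL L' := by
  unfold opL
  rw [List.map_append, List.sum_append]

end lists

/-- entries prime to `3` -/
private def Gd (t : Tm) : Prop := ¬ 3 ∣ t.2.1 ∧ ¬ 3 ∣ t.2.2.2.2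

private instance (t : Tm) : Decidable (Gd t) := inferInstanceAs (Decidable (_ ∧ _))

private theorem op3_mul (hTrm : S3Trm) {r s : ℕ} {t t' : Tm} (h : Gd t) (h' : Gd t') :
    (op3 t.2.1 t.2.2.1 t.2.2.2.1 t.2.2.2.2 * op3 t'.2.1 t'.2.2.1 t'.2.2.2.1 t'.2.2.2.2 :
      Module.End (ZMod 3) (Fn3 (3 ^ r) (3 ^ s))) =
    op3 (mulT t t').2.1 (mulT t t').2.2.1 (mulT t t').2.2.2.1 (mulT t t').2.2.2.2 := by
  apply LinearMap.ext
  intro F
  exact (hTrm (ZMod 3) r s F).1 t.2.1 t.2.2.1 t.2.2.2.1 t.2.2.2.2 t'.2.1 t'.2.2.1 t'.2.2.2.1 t'.2.2.2.2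
    h.1 h.2 h'.1 h'.2

private theorem opL_mulT (hTrm : S3Trm) {r s : ℕ} {t : Tm} (h : Gd t) (L' : List Tm) (h' : ∀ t' ∈ L', Gd t') :
    (opL (L'.map fun t' => mulT t t') : Module.End (ZMod 3) (Fn3 (3 ^ r) (3 ^ s))) =
    (((t.1 : ℤ) : ZMod 3) • op3 t.2.1 t.2.2.1 t.2.2.2.1 t.2.2.2.2) * opL L' := by
  induction L' with
  | nil => rw [List.map_nil, opL_nil, mul_zero]
  | cons a L' ih =>
    rw [List.map_cons, opL_cons, opL_cons, ih (fun t' ht' => h' t' (List.mem_cons_of_mem _ ht')), mul_add,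
      smul_mul_smul_comm, op3_mul hTrm h (h' a List.mem_cons_self)]
    have e : (((mulT t a).1 : ℤ) : ZMod 3) = ((t.1 : ℤ) : ZMod 3) * ((a.1 : ℤ) : ZMod 3) := by
      unfold mulT
      push_cast
      rfl
    rw [e]

private theorem opL_mul (hTrm : S3Trm) {r s : ℕ} (L L' : List Tm) (h : ∀ t ∈ L, Gd t) (h' : ∀ t' ∈ L', Gd t') :
    (opL (mulL L L') : Module.End (ZMod 3) (Fn3 (3 ^ r) (3 ^ s))) = opL L * opL L' := by
  induction L with
  | nil => exact (zero_mul _).symm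
  | cons a L ih =>
    have e : mulL (a :: L) L' = (L'.map fun t' => mulT a t') ++ mulL L L' := rfl
    rw [e, opL_append, opL_mulT hTrm (h a List.mem_cons_self) L' h', ih (fun t ht => h t (List.mem_cons_of_mem _ ht)),
      opL_cons, add_mul]

private theorem gdT2 : ∀ i f : Fin 3, ∀ t ∈ T2L i f, Gd t := by decide

section

variable {r s : ℕ}

/-- the three functions -/
private noncomputable def P (r s : ℕ) (G : ℤ → ℤ → ZMod 3) (f : Fin 3) : Fn3 (3 ^ r) (3 ^ s) := pf G f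

private theorem pfT22 (hHkB : S3HkB) (hHk2 : S3Hk2) (hTrm : S3Trm) {G : ℤ → ℤ → ZMod 3}
    (hG : Sym3 (r + 1) (s + 1) G) (i : Fin 3) :
    P r s (Tl 2 (3 ^ (r + 1)) (Tl 2 (3 ^ (r + 1)) G)) i = ∑ f : Fin 3, opL (T22L i f) (P r s G f) := by
  have h1 := (hHkB (ZMod 3) _ (r + 1) (s + 1) 2 G (by norm_num) (by norm_num) hG).1
  unfold P
  rw [hHk2 r s _ h1 i]
  simp_rw [hHk2 r s _ hG]
  simp only [Fin.sum_univ_three, T22L, opL_append, opL_mul hTrm _ _ (gdT2 _ _) (gdT2 _ _), LinearMap.add_apply,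
    Module.End.mul_apply, map_add]
  abel

private theorem pfBo (m : ℤ) (G : ℤ → ℤ → ZMod 3) (i : Fin 3) :
    P r s (Bo m G) i = P r s (Tl 7 m G) i + P r s G i - P r s (Tl 2 m (Tl 2 m G)) i := by
  funext x y
  simp only [P, pf, edge3, Bo, Pi.add_apply, Pi.sub_apply]
  ring

private theorem stepL (hLow0 : S3Low0) {O : Module.End (ZMod 3) (Fn3 (3 ^ r) (3 ^ s))} {k e : ℤ} (hO : Lw O k)
    {F H F' : Fn3 (3 ^ r) (3 ^ s)} (hF : F ∈ Wd3 e) (hH : F - H ∈ Wd3 (e - 1)) (hF' : F' - O F ∈ Wd3 (e - k - 1)) :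
    F' ∈ Wd3 (e - k) ∧ F' - O H ∈ Wd3 (e - k - 1) := by
  have hmono := (hLow0 r s).2.2.2.2.1
  have h1 : O F ∈ Wd3 (e - k) := hO e F hF
  have h2 : O (F - H) ∈ Wd3 (e - k - 1) := by
    have := hO (e - 1) _ hH
    rwa [show e - 1 - k = e - k - 1 by ring] at this
  constructor
  · have h3 := Submodule.add_mem _ (hmono _ _ (by linarith) hF') h1
    rwa [sub_add_cancel] at h3
  · have h3 := Submodule.add_mem _ hF' h2
    rwa [map_sub, sub_add_sub_cancel] at h3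

private theorem neg_one_end (O : Module.End (ZMod 3) (Fn3 (3 ^ r) (3 ^ s))) : (-1 : ZMod 3) • O = -O := by
  apply LinearMap.ext
  intro F
  funext x y
  show (-1 : ZMod 3) * O F x y = -(O F x y)
  ring

private theorem lw_Qo (hLow0 : S3Low0) : Lw (Qo : Module.End (ZMod 3) (Fn3 (3 ^ r) (3 ^ s))) 2 := by
  obtain ⟨hm, -, -, -, -, -, hx, hy, -⟩ := hLow0 r s
  have h1 := hm _ _ _ _ hx hy
  norm_num at h1
  exact h1

private theorem lw_pow (hLow0 : S3Low0) {O : Module.End (ZMod 3) (Fn3 (3 ^ r) (3 ^ s))} {k : ℤ} (hO : Lw O k) (n : ℕ) :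
    Lw (O ^ n) (k * n) := by
  obtain ⟨hm, -, -, -, -, h1, -⟩ := hLow0 r s
  induction n with
  | zero => simpa using h1
  | succ n ih =>
    rw [pow_succ]
    have := hm _ _ _ _ ih hO
    rwa [show k * n + k = k * (n + 1 : ℕ) by push_cast; ring] at this

private theorem lw_Lo (hLow0 : S3Low0) : Lw (Lo : Module.End (ZMod 3) (Fn3 (3 ^ r) (3 ^ s))) 4 := by
  obtain ⟨hm, ha, hc, -, -, -, hx, hy, -⟩ := hLow0 r s
  have x2 := lw_pow hLow0 hx 2
  have x3 := lw_pow hLow0 hx 3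
  have y2 := lw_pow hLow0 hy 2
  have y3 := lw_pow hLow0 hy 3
  have a1 := hm _ _ _ _ x3 hy
  have a2 := hm _ _ _ _ x2 y2
  have a3 := hm _ _ _ _ hx y3
  norm_num at a1 a2 a3
  have h := hc _ (-1) _ (ha _ _ _ (ha _ _ _ a1 a2) a3)
  rw [neg_one_end] at h
  exact h

private theorem lw_D (hLow0 : S3Low0) : Lw (dX - dY : Module.End (ZMod 3) (Fn3 (3 ^ r) (3 ^ s))) 1 := by
  obtain ⟨-, ha, hc, -, -, -, hx, hy, -⟩ := hLow0 r s
  have h := ha _ _ _ hx (hc _ (-1) _ hy)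
  rw [neg_one_end, ← sub_eq_add_neg] at h
  exact h

/-- two steps of `T_2` -/
private theorem stepT (hRel : S3Rel) (hHkB : S3HkB) (hHk2 : S3Hk2) (hTrm : S3Trm) (hLow0 : S3Low0) (hLd : S3Ld)
    {G : ℤ → ℤ → ZMod 3} {H : Fin 3 → Fn3 (3 ^ r) (3 ^ s)} {e : ℤ} (hG : Sym3 (r + 1) (s + 1) G)
    (hF : ∀ f, P r s G f ∈ Wd3 e) (hH : ∀ f, P r s G f - H f ∈ Wd3 (e - 1)) :
    Sym3 (r + 1) (s + 1) (Tl 2 (3 ^ (r + 1)) (Tl 2 (3 ^ (r + 1)) G)) ∧
    (∀ f, P r s (Tl 2 (3 ^ (r + 1)) (Tl 2 (3 ^ (r + 1)) G)) f ∈ Wd3 (e - 2)) ∧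
    ∀ f, P r s (Tl 2 (3 ^ (r + 1)) (Tl 2 (3 ^ (r + 1)) G)) f - Qo (H f) ∈ Wd3 (e - 2 - 1) := by
  have h1 := (hHkB (ZMod 3) _ (r + 1) (s + 1) 2 G (by norm_num) (by norm_num) hG).1
  have h2 := (hHkB (ZMod 3) _ (r + 1) (s + 1) 2 _ (by norm_num) (by norm_num) h1).1
  have hR : Rel3 (P r s G) := hRel (ZMod 3) _ r s G hG
  have hl := (hLd r s e (P r s G) hR hF).1
  have key : ∀ f, P r s (Tl 2 (3 ^ (r + 1)) (Tl 2 (3 ^ (r + 1)) G)) f ∈ Wd3 (e - 2) ∧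
      P r s (Tl 2 (3 ^ (r + 1)) (Tl 2 (3 ^ (r + 1)) G)) f - Qo (H f) ∈ Wd3 (e - 2 - 1) := by
    intro f
    refine stepL hLow0 (lw_Qo hLow0) (hF f) (hH f) ?_
    rw [pfT22 hHkB hHk2 hTrm hG f, show e - 2 - 1 = e - 3 by ring]
    exact hl f
  exact ⟨h2, fun f => (key f).1, fun f => (key f).2⟩

private theorem stepB (hRel : S3Rel) (hHkB : S3HkB) (hHk2 : S3Hk2) (hHk7 : ∀ i, S3Hk7 i) (hTrm : S3Trm)
    (hLow0 : S3Low0) (hLd : S3Ld) {G : ℤ → ℤ → ZMod 3} {e : ℤ} (hG : Sym3 (r + 1) (s + 1) G)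
    (hF : ∀ f, P r s G f ∈ Wd3 e) :
    Sym3 (r + 1) (s + 1) (Bo (3 ^ (r + 1)) G) ∧ (∀ f, P r s (Bo (3 ^ (r + 1)) G) f - Lo (P r s G f) ∈ Wd3 (e - 4 - 1)) ∧
    ∀ f, P r s (Bo (3 ^ (r + 1)) G) f ∈ Wd3 (e - 4) := by
  have h1 := (hHkB (ZMod 3) _ (r + 1) (s + 1) 2 G (by norm_num) (by norm_num) hG).1
  have h2 := (hHkB (ZMod 3) _ (r + 1) (s + 1) 2 _ (by norm_num) (by norm_num) h1).1
  have h7 := (hHkB (ZMod 3) _ (r + 1) (s + 1) 7 G (by norm_num) (by norm_num) hG).1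
  have hR : Rel3 (P r s G) := hRel (ZMod 3) _ r s G hG
  have hl := (hLd r s e (P r s G) hR hF).2.1
  have key : ∀ f, P r s (Bo (3 ^ (r + 1)) G) f - Lo (P r s G f) ∈ Wd3 (e - 4 - 1) := by
    intro f
    have e7 : P r s (Tl 7 (3 ^ (r + 1)) G) f = ∑ g : Fin 3, opL (T7L f g) (P r s G g) := hHk7 f r s G hG
    rw [pfBo, pfT22 hHkB hHk2 hTrm hG f, e7, show e - 4 - 1 = e - 5 by ring]
    exact hl f
  refine ⟨(h7.add hG).sub h2, key, fun f => ?_⟩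
  refine (stepL hLow0 (lw_Lo hLow0) (H := P r s G f) (hF f) ?_ (key f)).1
  rw [sub_self]
  exact Submodule.zero_mem _

private theorem iterT (hRel : S3Rel) (hHkB : S3HkB) (hHk2 : S3Hk2) (hTrm : S3Trm) (hLow0 : S3Low0) (hLd : S3Ld)
    {G : ℤ → ℤ → ZMod 3} {d : ℤ} (hG : Sym3 (r + 1) (s + 1) G) (hF : ∀ f, P r s G f ∈ Wd3 d) (k : ℕ) :
    Sym3 (r + 1) (s + 1) ((Tl 2 (3 ^ (r + 1)))^[2 * k] G) ∧
    (∀ f, P r s ((Tl 2 (3 ^ (r + 1)))^[2 * k] G) f ∈ Wd3 (d - 2 * k)) ∧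
    ∀ f, P r s ((Tl 2 (3 ^ (r + 1)))^[2 * k] G) f -
      (Qo ^ k : Module.End (ZMod 3) (Fn3 (3 ^ r) (3 ^ s))) (P r s G f) ∈ Wd3 (d - 2 * k - 1) := by
  induction k with
  | zero =>
    refine ⟨hG, fun f => by simpa using hF f, fun f => ?_⟩
    simp only [Nat.mul_zero, Function.iterate_zero, id_eq, pow_zero, Module.End.one_apply, sub_self]
    exact Submodule.zero_mem _
  | succ k ih =>
    obtain ⟨i1, i2, i3⟩ := ih
    obtain ⟨h1, h2, h3⟩ := stepT hRel hHkB hHk2 hTrm hLow0 hLd i1 i2 i3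
    have e : (Tl 2 (3 ^ (r + 1)))^[2 * (k + 1)] G =
        Tl 2 (3 ^ (r + 1)) (Tl 2 (3 ^ (r + 1)) ((Tl 2 (3 ^ (r + 1)))^[2 * k] G)) := by
      rw [show 2 * (k + 1) = (2 * k + 1) + 1 by ring, Function.iterate_succ_apply', Function.iterate_succ_apply']
    have hp : (Qo ^ (k + 1) : Module.End (ZMod 3) (Fn3 (3 ^ r) (3 ^ s))) = Qo * Qo ^ k := pow_succ' _ _
    have e2 : d - 2 * ((k + 1 : ℕ) : ℤ) = d - 2 * k - 2 := by push_cast; ring
    rw [e, hp, e2]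
    exact ⟨h1, h2, h3⟩

private theorem iterB (hRel : S3Rel) (hHkB : S3HkB) (hHk2 : S3Hk2) (hHk7 : ∀ i, S3Hk7 i) (hTrm : S3Trm)
    (hLow0 : S3Low0) (hLd : S3Ld) {G : ℤ → ℤ → ZMod 3} {H : Fin 3 → Fn3 (3 ^ r) (3 ^ s)} {e : ℤ}
    (hG : Sym3 (r + 1) (s + 1) G) (hF : ∀ f, P r s G f ∈ Wd3 e) (hH : ∀ f, P r s G f - H f ∈ Wd3 (e - 1)) (j : ℕ) :
    Sym3 (r + 1) (s + 1) ((Bo (3 ^ (r + 1)))^[j] G) ∧
    (∀ f, P r s ((Bo (3 ^ (r + 1)))^[j] G) f ∈ Wd3 (e - 4 * j)) ∧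
    ∀ f, P r s ((Bo (3 ^ (r + 1)))^[j] G) f -
      (Lo ^ j : Module.End (ZMod 3) (Fn3 (3 ^ r) (3 ^ s))) (H f) ∈ Wd3 (e - 4 * j - 1) := by
  induction j with
  | zero =>
    refine ⟨hG, fun f => by simpa using hF f, fun f => ?_⟩
    simpa using hH f
  | succ j ih =>
    obtain ⟨i1, i2, i3⟩ := ih
    obtain ⟨h1, h2, h3⟩ := stepB hRel hHkB hHk2 hHk7 hTrm hLow0 hLd i1 i2
    have h4 := fun f => (stepL hLow0 (lw_Lo hLow0) (i2 f) (i3 f) (h2 f)).2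
    have hp : (Lo ^ (j + 1) : Module.End (ZMod 3) (Fn3 (3 ^ r) (3 ^ s))) = Lo * Lo ^ j := pow_succ' _ _
    have e2 : e - 4 * ((j + 1 : ℕ) : ℤ) = e - 4 * j - 4 := by push_cast; ring
    rw [Function.iterate_succ_apply', hp, e2]
    exact ⟨h1, h3, h4⟩

/-- `Lo^j` and `oN` -/
private theorem lo_oN (hLow0 : S3Low0) (hLw1 : S3Lw1) {e : ℤ} {X : Fn3 (3 ^ r) (3 ^ s)} (hX : X ∈ Wd3 e) (j : ℕ) :
    (Lo ^ j : Module.End (ZMod 3) (Fn3 (3 ^ r) (3 ^ s))) (oN X) -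
      oN ((Lo ^ j : Module.End (ZMod 3) (Fn3 (3 ^ r) (3 ^ s))) X) ∈ Wd3 (e - 4 * j - 1) := by
  obtain ⟨-, -, -, -, hN, hLN, -⟩ := hLw1 r s
  have hmono := (hLow0 r s).2.2.2.2.1
  induction j with
  | zero =>
    rw [pow_zero, Module.End.one_apply, Module.End.one_apply, sub_self]
    exact Submodule.zero_mem _
  | succ j ih =>
    have hp : (Lo ^ (j + 1) : Module.End (ZMod 3) (Fn3 (3 ^ r) (3 ^ s))) = Lo * Lo ^ j := pow_succ' _ _
    rw [hp, Module.End.mul_apply, Module.End.mul_apply]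
    set Y := (Lo ^ j : Module.End (ZMod 3) (Fn3 (3 ^ r) (3 ^ s))) X with hY
    set Z := (Lo ^ j : Module.End (ZMod 3) (Fn3 (3 ^ r) (3 ^ s))) (oN X) with hZ
    have h1 : Lo (Z - oN Y) ∈ Wd3 (e - 4 * j - 1 - 4) := lw_Lo hLow0 _ _ ih
    have hYm : Y ∈ Wd3 (e - 4 * j) := lw_pow hLow0 (lw_Lo hLow0) j e X hX
    have h2 : (Lo * oN - oN * Lo : Module.End (ZMod 3) (Fn3 (3 ^ r) (3 ^ s))) Y ∈ Wd3 (e - 4 * j - 5) :=
      hLN _ _ hYm
    have h3 : Lo Z - oN (Lo Y) = Lo (Z - oN Y) + (Lo * oN - oN * Lo : Module.End (ZMod 3) (Fn3 (3 ^ r) (3 ^ s))) Y := by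
      rw [map_sub, LinearMap.sub_apply, Module.End.mul_apply, Module.End.mul_apply]
      abel
    rw [h3]
    refine Submodule.add_mem _ (hmono _ _ ?_ h1) (hmono _ _ ?_ h2)
    · push_cast; linarith
    · push_cast; linarith

private theorem com_xy (hLow0 : S3Low0) : Commute (dX : Module.End (ZMod 3) (Fn3 (3 ^ r) (3 ^ s))) dY := by
  obtain ⟨-, -, -, -, -, -, -, -, h, -⟩ := hLow0 r s
  exact h

private theorem com_QL (hLow0 : S3Low0) : Commute (Qo : Module.End (ZMod 3) (Fn3 (3 ^ r) (3 ^ s))) Lo := by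
  have h := com_xy (r := r) (s := s) hLow0
  have x : Commute (Qo : Module.End (ZMod 3) (Fn3 (3 ^ r) (3 ^ s))) dX := (Commute.refl _).mul_left h.symm
  have y : Commute (Qo : Module.End (ZMod 3) (Fn3 (3 ^ r) (3 ^ s))) dY := h.mul_left (Commute.refl _)
  unfold Lo
  exact (((x.pow_right 3).mul_right y).add_right ((x.pow_right 2).mul_right (y.pow_right 2))
    |>.add_right (x.mul_right (y.pow_right 3))).neg_right

private theorem com_DQ (hLow0 : S3Low0) :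
    Commute (dX - dY : Module.End (ZMod 3) (Fn3 (3 ^ r) (3 ^ s))) Qo := by
  have h := com_xy (r := r) (s := s) hLow0
  have x : Commute (Qo : Module.End (ZMod 3) (Fn3 (3 ^ r) (3 ^ s))) dX := (Commute.refl _).mul_left h.symm
  have y : Commute (Qo : Module.End (ZMod 3) (Fn3 (3 ^ r) (3 ^ s))) dY := h.mul_left (Commute.refl _)
  exact (x.sub_right y).symm

private theorem com_DL (hLow0 : S3Low0) :
    Commute (dX - dY : Module.End (ZMod 3) (Fn3 (3 ^ r) (3 ^ s))) Lo := by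
  have h := com_xy (r := r) (s := s) hLow0
  have x : Commute (dX - dY : Module.End (ZMod 3) (Fn3 (3 ^ r) (3 ^ s))) dX := (Commute.refl _).sub_left h.symm
  have y : Commute (dX - dY : Module.End (ZMod 3) (Fn3 (3 ^ r) (3 ^ s))) dY := h.sub_left (Commute.refl _)
  unfold Lo
  exact (((x.pow_right 3).mul_right y).add_right ((x.pow_right 2).mul_right (y.pow_right 2))
    |>.add_right (x.mul_right (y.pow_right 3))).neg_right

private theorem lw_S (hLow0 : S3Low0) : Lw (dX + dY : Module.End (ZMod 3) (Fn3 (3 ^ r) (3 ^ s))) 1 := by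
  obtain ⟨-, ha, -, -, -, -, hx, hy, -⟩ := hLow0 r s
  exact ha _ _ _ hx hy

/-- the quadratic form -/
private theorem q_eq (hLow0 : S3Low0) : (dX ^ 2 - dY ^ 2 : Module.End (ZMod 3) (Fn3 (3 ^ r) (3 ^ s))) =
    (dX + dY) * (dX - dY) := by
  have h := com_xy (r := r) (s := s) hLow0
  rw [mul_sub, add_mul, add_mul, ← pow_two, ← pow_two, h.eq]
  abel

private theorem lw_q (hLow0 : S3Low0) : Lw (dX ^ 2 - dY ^ 2 : Module.End (ZMod 3) (Fn3 (3 ^ r) (3 ^ s))) 2 := by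
  obtain ⟨hm, -⟩ := hLow0 r s
  have := hm _ _ _ _ (lw_S hLow0) (lw_D hLow0)
  rw [← q_eq hLow0] at this
  norm_num at this
  exact this

private theorem com_SL (hLow0 : S3Low0) :
    Commute (dX + dY : Module.End (ZMod 3) (Fn3 (3 ^ r) (3 ^ s))) Lo := by
  have h := com_xy (r := r) (s := s) hLow0
  have x : Commute (dX + dY : Module.End (ZMod 3) (Fn3 (3 ^ r) (3 ^ s))) dX := (Commute.refl _).add_left h.symm
  have y : Commute (dX + dY : Module.End (ZMod 3) (Fn3 (3 ^ r) (3 ^ s))) dY := h.add_left (Commute.refl _)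
  unfold Lo
  exact (((x.pow_right 3).mul_right y).add_right ((x.pow_right 2).mul_right (y.pow_right 2))
    |>.add_right (x.mul_right (y.pow_right 3))).neg_right

private theorem oN_apply (F : Fn3 (3 ^ r) (3 ^ s)) (x : ZMod (3 ^ r)) (y : ZMod (3 ^ s)) :
    oN F x y = F (-x) (-y) := by
  change F ((((0 : ℤ) : ZMod (3 ^ r)) + ((1 : ℤ) : ZMod (3 ^ r)) * x) *
    (((-1 : ℤ) : ZMod (3 ^ r)) + 9 * ((0 : ℤ) : ZMod (3 ^ r)) * x)⁻¹)
    ((((0 : ℤ) : ZMod (3 ^ s)) + ((-1 : ℤ) : ZMod (3 ^ s)) * y) *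
    (((1 : ℤ) : ZMod (3 ^ s)) + 9 * ((0 : ℤ) : ZMod (3 ^ s)) * y)⁻¹) = F (-x) (-y)
  have e1 : (((-1 : ℤ) : ZMod (3 ^ r)) + 9 * ((0 : ℤ) : ZMod (3 ^ r)) * x)⁻¹ = -1 := by
    rw [Int.cast_zero, mul_zero, zero_mul, add_zero, Int.cast_neg, Int.cast_one,
      ZMod.inv_neg_one]
  have e2 : (((1 : ℤ) : ZMod (3 ^ s)) + 9 * ((0 : ℤ) : ZMod (3 ^ s)) * y)⁻¹ = 1 := by
    rw [Int.cast_zero, mul_zero, zero_mul, add_zero, Int.cast_one, ZMod.inv_one]
  rw [e1, e2]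
  congr 1
  · rw [Int.cast_zero, Int.cast_one]; ring
  · rw [Int.cast_zero, Int.cast_neg, Int.cast_one]; ring

private theorem dX_apply (F : Fn3 (3 ^ r) (3 ^ s)) (x : ZMod (3 ^ r)) (y : ZMod (3 ^ s)) :
    dX F x y = F (x + 1) y - F x y := rfl

private theorem dY_apply (F : Fn3 (3 ^ r) (3 ^ s)) (x : ZMod (3 ^ r)) (y : ZMod (3 ^ s)) :
    dY F x y = F x (y + 1) - F x y := rfl

private theorem dX_oN : (dX * oN : Module.End (ZMod 3) (Fn3 (3 ^ r) (3 ^ s))) =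
    -(1 + dX) * oN * dX := by
  apply LinearMap.ext
  intro F
  funext x y
  rw [Module.End.mul_apply, Module.End.mul_apply, Module.End.mul_apply, neg_add, LinearMap.add_apply,
    LinearMap.neg_apply, LinearMap.neg_apply, Module.End.one_apply, Pi.add_apply, Pi.add_apply,
    Pi.neg_apply, Pi.neg_apply, Pi.neg_apply, Pi.neg_apply]
  rw [dX_apply, dX_apply, oN_apply, oN_apply, oN_apply, oN_apply, dX_apply, dX_apply]
  have e : -(x + 1) + 1 = -x := by ring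
  rw [e]
  ring

private theorem dY_oN : (dY * oN : Module.End (ZMod 3) (Fn3 (3 ^ r) (3 ^ s))) =
    -(1 + dY) * oN * dY := by
  apply LinearMap.ext
  intro F
  funext x y
  rw [Module.End.mul_apply, Module.End.mul_apply, Module.End.mul_apply, neg_add, LinearMap.add_apply,
    LinearMap.neg_apply, LinearMap.neg_apply, Module.End.one_apply, Pi.add_apply, Pi.add_apply,
    Pi.neg_apply, Pi.neg_apply, Pi.neg_apply, Pi.neg_apply]
  rw [dY_apply, dY_apply, oN_apply, oN_apply, oN_apply, oN_apply, dY_apply, dY_apply]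
  have e : -(y + 1) + 1 = -y := by ring
  rw [e]
  ring

private theorem dx_oN (hLow0 : S3Low0) (hLw1 : S3Lw1) {e : ℤ} {X : Fn3 (3 ^ r) (3 ^ s)} (hX : X ∈ Wd3 e) :
    (dX + dY : Module.End (ZMod 3) (Fn3 (3 ^ r) (3 ^ s))) (oN X) +
      oN ((dX + dY : Module.End (ZMod 3) (Fn3 (3 ^ r) (3 ^ s))) X) ∈ Wd3 (e - 2) := by
  obtain ⟨-, -, -, -, hN, -, -⟩ := hLw1 r s
  obtain ⟨-, -, -, -, -, -, hx, hy, -⟩ := hLow0 r s
  have x1 := hx _ _ (hN _ _ (hx _ _ hX))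
  have y1 := hy _ _ (hN _ _ (hy _ _ hX))
  have e1 : dX (oN X) = -(oN (dX X)) - dX (oN (dX X)) := by
    have := LinearMap.congr_fun (dX_oN (r := r) (s := s)) X
    rw [Module.End.mul_apply] at this
    rw [this]
    rw [Module.End.mul_apply, Module.End.mul_apply, neg_add, LinearMap.add_apply, LinearMap.neg_apply,
      LinearMap.neg_apply, Module.End.one_apply, sub_eq_add_neg]
  have e2 : dY (oN X) = -(oN (dY X)) - dY (oN (dY X)) := by
    have := LinearMap.congr_fun (dY_oN (r := r) (s := s)) X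
    rw [Module.End.mul_apply] at this
    rw [this]
    rw [Module.End.mul_apply, Module.End.mul_apply, neg_add, LinearMap.add_apply, LinearMap.neg_apply,
      LinearMap.neg_apply, Module.End.one_apply, sub_eq_add_neg]
  have e3 : (dX + dY : Module.End (ZMod 3) (Fn3 (3 ^ r) (3 ^ s))) (oN X) +
      oN ((dX + dY : Module.End (ZMod 3) (Fn3 (3 ^ r) (3 ^ s))) X) =
      -(dX (oN (dX X))) - dY (oN (dY X)) := by
    rw [LinearMap.add_apply, LinearMap.add_apply, map_add, e1, e2]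
    abel
  rw [e3]
  rw [show e - 1 - 0 - 1 = e - 2 by ring] at x1 y1
  exact Submodule.sub_mem _ (Submodule.neg_mem _ x1) y1

end

theorem hItr3 (hX : X3l) (hRel : S3Rel) (hHkB : S3HkB) (hHk2 : S3Hk2) (hHk7 : ∀ i, S3Hk7 i) (hTrm : S3Trm)
    (hLow0 : S3Low0) (hLw1 : S3Lw1) (hLd : S3Ld) : Itr3 := by
  intro D r s G d hsq hmod hr hG hd i j
  have hd' : ∀ f, P r s G f ∈ Wd3 (d : ℤ) := hd
  have hmono := (hLow0 r s).2.2.2.2.1
  have hz : ∀ F : Fn3 (3 ^ r) (3 ^ s), F ∈ Wd3 (-1) → F = 0 :=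
    (hLow0 r s).2.2.2.2.2.2.2.2.2.2.2.2.2
  set κ : ZMod 3 := (-1) ^ (r + 1) * ((Tn D : ℤ) : ZMod 3) ^ 2 with hκ
  -- the value for symbols of degree at most two
  have hval : ∀ h : ℤ → ℤ → ZMod 3, Sym3 (r + 1) (s + 1) h → (∀ f, P r s h f ∈ Wd3 2) →
      eXb D (3 ^ (r + 1)) h = κ *
        ((dX ^ 2 - dY ^ 2 : Module.End (ZMod 3) (Fn3 (3 ^ r) (3 ^ s))) (P r s h 1 - P r s h 2)) 0 0 :=
    fun h h1 h2 => hX D r s h hsq hmod hr h1 h2
  have hlow : ∀ h : ℤ → ℤ → ZMod 3, Sym3 (r + 1) (s + 1) h → (∀ f, P r s h f ∈ Wd3 1) →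
      eXb D (3 ^ (r + 1)) h = 0 := by
    intro h h1 h2
    rw [hval h h1 (fun f => hmono 1 2 (by norm_num) (h2 f))]
    have h3 := lw_q hLow0 _ _ (Submodule.sub_mem _ (h2 1) (h2 2))
    have h4 := hz _ (hmono _ _ (by norm_num) h3)
    rw [h4]
    exact mul_zero κ
  have hev : evTb D (3 ^ (r + 1)) G i j =
      eXb D (3 ^ (r + 1)) ((Bo (3 ^ (r + 1)))^[j] ((Tl 2 (3 ^ (r + 1)))^[i] G)) := rfl
  rcases Nat.even_or_odd' i with ⟨k, rfl | rfl⟩
  · -- even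
    obtain ⟨a1, a2, a3⟩ := iterT hRel hHkB hHk2 hTrm hLow0 hLd hG hd' k
    obtain ⟨b1, b2, b3⟩ := iterB hRel hHkB hHk2 hHk7 hTrm hLow0 hLd a1 a2 a3 j
    refine ⟨fun hlt => ?_, fun heq _ => ?_, fun _ hodd => ?_⟩
    · rw [hev]
      refine hlow _ b1 (fun f => hmono _ 1 ?_ (b2 f))
      have : (d : ℤ) < 2 * k + 4 * j + 2 := by exact_mod_cast hlt
      linarith
    · have hd4 : (2 * k + 4 * j + 2 : ℤ) = d := by exact_mod_cast heq
      rw [hev, hval _ b1 (fun f => hmono _ 2 (by linarith) (b2 f))]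
      congr 1
      have h1 := Submodule.sub_mem _ (b3 1) (b3 2)
      have h2 := lw_q hLow0 _ _ h1
      have h3 := hz _ (hmono _ (-1) (by linarith) h2)
      rw [show P r s ((Bo (3 ^ (r + 1)))^[j] ((Tl 2 (3 ^ (r + 1)))^[2 * k] G)) 1 -
          (Lo ^ j : Module.End (ZMod 3) (Fn3 (3 ^ r) (3 ^ s)))
            ((Qo ^ k : Module.End (ZMod 3) (Fn3 (3 ^ r) (3 ^ s))) (P r s G 1)) -
          (P r s ((Bo (3 ^ (r + 1)))^[j] ((Tl 2 (3 ^ (r + 1)))^[2 * k] G)) 2 -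
          (Lo ^ j : Module.End (ZMod 3) (Fn3 (3 ^ r) (3 ^ s)))
            ((Qo ^ k : Module.End (ZMod 3) (Fn3 (3 ^ r) (3 ^ s))) (P r s G 2))) =
          (P r s ((Bo (3 ^ (r + 1)))^[j] ((Tl 2 (3 ^ (r + 1)))^[2 * k] G)) 1 -
            P r s ((Bo (3 ^ (r + 1)))^[j] ((Tl 2 (3 ^ (r + 1)))^[2 * k] G)) 2) -
          (Lo ^ j : Module.End (ZMod 3) (Fn3 (3 ^ r) (3 ^ s)))
            ((Qo ^ k : Module.End (ZMod 3) (Fn3 (3 ^ r) (3 ^ s))) (P r s G 1 - P r s G 2)) by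
          rw [map_sub, map_sub]; abel, map_sub, sub_eq_zero] at h3
      have hk : 2 * k / 2 = k := by omega
      rw [h3, hk, ← Module.End.mul_apply, ← Module.End.mul_apply]
      have hc : ((dX ^ 2 - dY ^ 2) * Lo ^ j * Qo ^ k : Module.End (ZMod 3) (Fn3 (3 ^ r) (3 ^ s))) =
          (dX ^ 2 - dY ^ 2) * Qo ^ k * Lo ^ j := by
        rw [mul_assoc, ((com_QL hLow0).pow_pow k j).symm.eq, ← mul_assoc]
      rw [hc]
      rfl
    · omega
  · -- odd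
    obtain ⟨a1, a2, a3⟩ := iterT hRel hHkB hHk2 hTrm hLow0 hLd hG hd' k
    set G' := (Tl 2 (3 ^ (r + 1)))^[2 * k] G with hG'
    have hR : Rel3 (P r s G') := hRel (ZMod 3) _ r s G' a1
    obtain ⟨l1, -, l3, -⟩ := hLd r s _ (P r s G') hR a2
    have t1 := (hHkB (ZMod 3) _ (r + 1) (s + 1) 2 G' (by norm_num) (by norm_num) a1).1
    have t2 : ∀ f, P r s (Tl 2 (3 ^ (r + 1)) G') f = ∑ g : Fin 3, opL (T2L f g) (P r s G' g) := fun f =>
      hHk2 r s G' a1 f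
    set K := Tl 2 (3 ^ (r + 1)) G' with hK
    have c2 : ∀ f, P r s K f ∈ Wd3 ((d : ℤ) - 2 * k - 1) := fun f => by
      rw [t2 f]
      exact l3 f
    have hRK : Rel3 (P r s K) := hRel (ZMod 3) _ r s K t1
    obtain ⟨-, -, -, l4⟩ := hLd r s _ (P r s K) hRK c2
    have t3 : P r s (Tl 2 (3 ^ (r + 1)) K) 0 = ∑ g : Fin 3, opL (T2L 0 g) (P r s K g) := hHk2 r s K t1 0
    have t4 : P r s (Tl 2 (3 ^ (r + 1)) K) 0 - Qo (P r s G' 0) ∈ Wd3 ((d : ℤ) - 2 * k - 3) := by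
      rw [hK, pfT22 hHkB hHk2 hTrm a1 0]
      exact l1 0
    obtain ⟨b1, b2, b3⟩ := iterB hRel hHkB hHk2 hHk7 hTrm hLow0 hLd t1 c2
      (fun f => by rw [sub_self]; exact Submodule.zero_mem _) (H := P r s K) j
    have hit : (Tl 2 (3 ^ (r + 1)))^[2 * k + 1] G = K := Function.iterate_succ_apply' _ _ _
    refine ⟨fun hlt => ?_, fun _ heven => ?_, fun heq _ => ?_⟩
    · rw [hev, hit]
      refine hlow _ b1 (fun f => hmono _ 1 ?_ (b2 f))
      have : (d : ℤ) < 2 * k + 1 + 4 * j + 2 := by exact_mod_cast hlt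
      linarith
    · omega
    · have hd4 : (2 * k + 1 + 4 * j + 2 : ℤ) = d := by exact_mod_cast heq
      rw [hev, hit, hval _ b1 (fun f => hmono _ 2 (by linarith) (b2 f))]
      congr 1
      set Φ : Fn3 (3 ^ r) (3 ^ s) := P r s K 1 - P r s K 2 with hΦ
      -- first step
      have h1 := Submodule.sub_mem _ (b3 1) (b3 2)
      have h2 := lw_q hLow0 _ _ h1
      have h3 := hz _ (hmono _ (-1) (by linarith) h2)
      rw [show P r s ((Bo (3 ^ (r + 1)))^[j] K) 1 -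
          (Lo ^ j : Module.End (ZMod 3) (Fn3 (3 ^ r) (3 ^ s))) (P r s K 1) -
          (P r s ((Bo (3 ^ (r + 1)))^[j] K) 2 -
          (Lo ^ j : Module.End (ZMod 3) (Fn3 (3 ^ r) (3 ^ s))) (P r s K 2)) =
          (P r s ((Bo (3 ^ (r + 1)))^[j] K) 1 - P r s ((Bo (3 ^ (r + 1)))^[j] K) 2) -
          (Lo ^ j : Module.End (ZMod 3) (Fn3 (3 ^ r) (3 ^ s))) Φ by
          rw [hΦ, map_sub]; abel, map_sub, sub_eq_zero] at h3
      rw [h3]
      -- the relation between the two sides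
      have hΦm : Φ ∈ Wd3 ((d : ℤ) - 2 * k - 1) := Submodule.sub_mem _ (c2 1) (c2 2)
      set X : Fn3 (3 ^ r) (3 ^ s) := (dX - dY : Module.End (ZMod 3) (Fn3 (3 ^ r) (3 ^ s))) Φ with hXd
      have hXm : X ∈ Wd3 ((d : ℤ) - 2 * k - 1 - 1) := lw_D hLow0 _ _ hΦm
      have z1 : oN X + Qo (P r s G' 0) ∈ Wd3 ((d : ℤ) - 2 * k - 3) := by
        rw [← t3, show (d : ℤ) - 2 * k - 1 - 2 = (d : ℤ) - 2 * k - 3 by ring] at l4
        have := Submodule.sub_mem _ l4 t4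
        rwa [show P r s (Tl 2 (3 ^ (r + 1)) K) 0 + oN X - (P r s (Tl 2 (3 ^ (r + 1)) K) 0 - Qo (P r s G' 0)) =
          oN X + Qo (P r s G' 0) by abel] at this
      have z2 := lw_S hLow0 _ _ z1
      have z3 := lw_pow hLow0 (lw_Lo hLow0) j _ _ z2
      have z4 := hz _ (hmono _ (-1) (by linarith) z3)
      have w1 := dx_oN hLow0 hLw1 hXm
      have w2 := lw_pow hLow0 (lw_Lo hLow0) j _ _ w1
      have w3 := hz _ (hmono _ (-1) (by linarith) w2)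
      set W : Fn3 (3 ^ r) (3 ^ s) := (dX + dY : Module.End (ZMod 3) (Fn3 (3 ^ r) (3 ^ s))) X with hW
      have hWm : W ∈ Wd3 ((d : ℤ) - 2 * k - 1 - 1 - 1) := lw_S hLow0 _ _ hXm
      have w4 := hz _ (hmono _ (-1) (by linarith) (lo_oN hLow0 hLw1 hWm j))
      -- `Lo^j oN W = Lo^j (dX + dY) Qo F0(G')`
      have u1 : oN ((Lo ^ j : Module.End (ZMod 3) (Fn3 (3 ^ r) (3 ^ s))) W) =
          (Lo ^ j : Module.End (ZMod 3) (Fn3 (3 ^ r) (3 ^ s)))
            ((dX + dY : Module.End (ZMod 3) (Fn3 (3 ^ r) (3 ^ s))) (Qo (P r s G' 0))) := by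
        rw [map_add, map_add] at z4
        rw [map_add] at w3
        have v1 := sub_eq_zero.1 w4
        rw [← v1]
        have v2 := eq_neg_of_add_eq_zero_left z4
        have v3 := eq_neg_of_add_eq_zero_right w3
        rw [v3, v2, neg_neg]
      -- replace `F0(G')` by `Qo^k F0(G)`
      have r1 := hmono _ _ (le_refl _) (a3 0)
      have r2 := lw_Qo hLow0 _ _ r1
      have r3 := lw_S hLow0 _ _ r2
      have r4 := lw_pow hLow0 (lw_Lo hLow0) j _ _ r3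
      have r5 := hz _ (hmono _ (-1) (by linarith) r4)
      rw [map_sub, map_sub, map_sub, sub_eq_zero] at r5
      rw [r5] at u1
      have hN0 := (hLw1 r s).2.2.2.2.2.2
      have e1 : (dX ^ 2 - dY ^ 2 : Module.End (ZMod 3) (Fn3 (3 ^ r) (3 ^ s)))
          ((Lo ^ j : Module.End (ZMod 3) (Fn3 (3 ^ r) (3 ^ s))) Φ) =
          (Lo ^ j : Module.End (ZMod 3) (Fn3 (3 ^ r) (3 ^ s))) W := by
        rw [hW, hXd, q_eq hLow0, ← Module.End.mul_apply, ← Module.End.mul_apply, ← Module.End.mul_apply]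
        have q1 := ((com_SL (r := r) (s := s) hLow0).pow_right j).eq
        have q2 := ((com_DL (r := r) (s := s) hLow0).pow_right j).eq
        have q3 : ((dX + dY) * (dX - dY) * Lo ^ j : Module.End (ZMod 3) (Fn3 (3 ^ r) (3 ^ s))) =
            Lo ^ j * (dX + dY) * (dX - dY) := by
          rw [mul_assoc, q2, ← mul_assoc, q1]
        rw [q3]
      rw [e1, ← hN0 ((Lo ^ j : Module.End (ZMod 3) (Fn3 (3 ^ r) (3 ^ s))) W), u1]
      have hk : (2 * k + 1) / 2 + 1 = k + 1 := by omega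
      rw [hk, ← Module.End.mul_apply, ← Module.End.mul_apply, ← Module.End.mul_apply]
      have hc : (Lo ^ j * (dX + dY) * Qo * Qo ^ k : Module.End (ZMod 3) (Fn3 (3 ^ r) (3 ^ s))) =
          (dX + dY) * Qo ^ (k + 1) * Lo ^ j := by
        have q1 : (Lo ^ j * (dX + dY) : Module.End (ZMod 3) (Fn3 (3 ^ r) (3 ^ s))) = (dX + dY) * Lo ^ j :=
          ((com_SL hLow0).pow_right j).symm
        have q2 : (Lo ^ j * Qo ^ (k + 1) : Module.End (ZMod 3) (Fn3 (3 ^ r) (3 ^ s))) = Qo ^ (k + 1) * Lo ^ j :=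
          ((com_QL hLow0).pow_pow (k + 1) j).symm
        rw [mul_assoc _ Qo, ← pow_succ', q1, mul_assoc, q2, ← mul_assoc]
      rw [hc]
      rfl

end Pool.Agent.Helper76.T3
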