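import Pool.Agent.Helper76.T3.StU

/-!
# Project T3, modules UBT3of and UBT3eof: the upper bounds for level 3^n, with signs
-/

set_option autoImplicit false

open Pool.Agent.Helper14.CV (Homog EqC act Tl)
open Pool.Agent.Helper14.W3 Pool.Agent.Helper78.W3
open Pool.Agent.Helper76.TX (Sg)
open Pool.Agent.Helper14.T3

namespace Pool.Agent.Helper76.T3

/-- The function `edge3` of the transported potential as a linear map. -/
private noncomputable def Lm (μ k r s : ℕ) (u1 u2 v1 v2 : ℤ) :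
    (ℤ → ℤ → ℂ) →ₗ[ℂ] (ZMod (3 ^ r) → ZMod (3 ^ s) → ℂ) where
  toFun G x y := edge3 μ u1 u2 v1 v2 (act 1 0 0 (3 ^ k) G) x y
  map_add' G H := by
    funext x y
    simp only [edge3, act, Pi.add_apply]
    ring
  map_smul' c G := by
    funext x y
    simp only [edge3, act, Pi.smul_apply, smul_eq_mul, RingHom.id_apply]
    ring

private noncomputable def LmH (k : ℕ) :
    (ℤ → ℤ → ℂ) →ₗ[ℂ] (ZMod (3 ^ (k - 1)) → ZMod (3 ^ (k - 1)) → ℂ) where
  toFun G := hE k (act 1 0 0 (3 ^ k) G)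
  map_add' G H := by
    funext x y
    simp only [hE, edge3, act, Pi.add_apply]
    ring
  map_smul' c G := by
    funext x y
    simp only [hE, edge3, act, Pi.smul_apply, smul_eq_mul, RingHom.id_apply]
    ring

private noncomputable def LmL (k : ℕ) :
    (ℤ → ℤ → ℂ) →ₗ[ℂ] (ZMod (3 ^ (k - 1)) → ZMod (3 ^ (k - 1)) → ℂ) where
  toFun G := lE k (act 1 0 0 (3 ^ k) G)
  map_add' G H := by
    funext x y
    simp only [lE, edge3, act, Pi.add_apply]
    ring
  map_smul' c G := by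
    funext x y
    simp only [lE, edge3, act, Pi.smul_apply, smul_eq_mul, RingHom.id_apply]
    ring

private theorem build (n : ℕ) (w ε : ℤ) (D : ℕ) {W : Type} [AddCommGroup W] [Module ℂ W] [Module.Finite ℂ W]
    (hW : Module.finrank ℂ W ≤ D) (L : NSS3 n w ε →ₗ[ℂ] W)
    (hinj : ∀ G : NSS3 n w ε, L G = 0 → EqC (G : ℤ → ℤ → ℂ) 0) :
    ∃ Θ : NSS3 n w ε →ₗ[ℂ] (Fin D → ℂ), ∀ G : NSS3 n w ε, Θ G = 0 → EqC (G : ℤ → ℤ → ℂ) 0 := by
  have h0 : Module.finrank ℂ W ≤ Module.finrank ℂ (Fin D → ℂ) := by simpa using hW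
  obtain ⟨e, he⟩ := finrank_le_iff_exists_linearMap.1 h0
  refine ⟨e.comp L, fun G hG => hinj G ?_⟩
  apply he
  rw [map_zero]
  exact hG

private theorem gen (hBal : BalS3) (hE1 : E1S3) (hO1 : O1S3) (w ε : ℤ) (hw : Sg w) (hε : Sg ε)
    (n D : ℕ) (hn : 3 ≤ n)
    (hDE : ∀ k : ℕ, n = 2 * k → 2 * Module.finrank ℂ (antiE3S k w (-ε)) ≤ D)
    (hDO : ∀ k : ℕ, n = 2 * k + 1 →
      Module.finrank ℂ ↥(antiO3S k (w * ε) ε ⊓ LinearMap.ker (Rh k)) ≤ D) :
    ∃ Θ : NSS3 n w ε →ₗ[ℂ] (Fin D → ℂ), ∀ G : NSS3 n w ε, Θ G = 0 → EqC (G : ℤ → ℤ → ℂ) 0 := by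
  rcases Nat.even_or_odd' n with ⟨k, hk | hk⟩
  · -- even exponent
    subst hk
    have hk2 : 2 ≤ k := by omega
    have key : ∀ G ∈ NSS3 (2 * k) w ε, LmH k G ∈ antiE3S k w (-ε) ∧ LmL k G ∈ antiE3S k w (-ε) ∧
        (LmH k G = 0 → LmL k G = 0 → EqC G 0) := by
      intro G hG
      have hN : NewSym3S (2 * k) w ε G := hG
      have hB := (hBal w ε k G (by omega)).1 hN
      obtain ⟨a1, a2, a3⟩ := hE1 w ε k _ hw hε hk2 hB
      refine ⟨a1, a2, fun h0 h0' => ?_⟩
      have h3 := a3 (fun x y => congrFun (congrFun h0 x) y) (fun x y => congrFun (congrFun h0' x) y)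
      exact (hBal w ε k G (by omega)).2.2 hN.1.1 h3
    let L1 : NSS3 (2 * k) w ε →ₗ[ℂ] antiE3S k w (-ε) :=
      ((LmH k).comp (NSS3 (2 * k) w ε).subtype).codRestrict (antiE3S k w (-ε)) (fun G => (key G G.2).1)
    let L2 : NSS3 (2 * k) w ε →ₗ[ℂ] antiE3S k w (-ε) :=
      ((LmL k).comp (NSS3 (2 * k) w ε).subtype).codRestrict (antiE3S k w (-ε)) (fun G => (key G G.2).2.1)
    refine build (2 * k) w ε _ ?_ (L1.prod L2) (fun G hG => ?_)
    · rw [Module.finrank_prod]
      have := hDE k rfl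
      omega
    · have h1 : L1 G = 0 := congrArg Prod.fst hG
      have h2 : L2 G = 0 := congrArg Prod.snd hG
      exact (key G G.2).2.2 (congrArg Subtype.val h1) (congrArg Subtype.val h2)
  · -- odd exponent
    subst hk
    have hk1 : 1 ≤ k := by omega
    have key : ∀ G ∈ NSS3 (2 * k + 1) w ε,
        Lm 0 k k k 1 0 0 1 G ∈ antiO3S k (w * ε) ε ⊓ LinearMap.ker (Rh k) ∧
        (Lm 0 k k k 1 0 0 1 G = 0 → EqC G 0) := by
      intro G hG
      have hN : NewSym3S (2 * k + 1) w ε G := hG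
      have hB := (hBal w ε k G hk1).2.1 hN
      obtain ⟨a1, a2, a3⟩ := hO1 w ε k _ hw hε hk1 hB
      refine ⟨⟨a1, LinearMap.mem_ker.2 a2⟩, fun h0 => ?_⟩
      have h3 := a3 (fun x y => congrFun (congrFun h0 x) y)
      exact (hBal w ε k G hk1).2.2 hN.1.1 h3
    let L1 : NSS3 (2 * k + 1) w ε →ₗ[ℂ] ↥(antiO3S k (w * ε) ε ⊓ LinearMap.ker (Rh k)) :=
      ((Lm 0 k k k 1 0 0 1).comp (NSS3 (2 * k + 1) w ε).subtype).codRestrict
        (antiO3S k (w * ε) ε ⊓ LinearMap.ker (Rh k)) (fun G => (key G G.2).1)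
    refine build (2 * k + 1) w ε _ (hDO k rfl) L1 (fun G hG => ?_)
    exact (key G G.2).2 (congrArg Subtype.val hG)

private theorem w3_even (k : ℕ) : w3 (2 * k) = -1 := by
  unfold w3
  rw [pow_mul]
  norm_num

private theorem w3_odd (k : ℕ) : w3 (2 * k + 1) = 1 := by
  unfold w3
  rw [pow_succ, pow_mul]
  norm_num

theorem Sg_w3 (n : ℕ) : Sg (w3 n) := by
  rcases Nat.even_or_odd' n with ⟨k, rfl | rfl⟩
  · rw [w3_even]; right; rfl
  · rw [w3_odd]; left; rfl

private theorem nine_pow (m : ℕ) : (9 : ℤ) ^ m = 3 ^ m * 3 ^ m := by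
  rw [← mul_pow]; norm_num

theorem hUBT3of : UBT3of := by
  intro hBal hE1 hDimE hO1 hDimO hKerO n hn
  refine gen hBal hE1 hO1 (w3 n) (-1) (Sg_w3 n) (Or.inr rfl) n _ hn ?_ ?_
  · intro k hk
    subst hk
    rw [w3_even]
    have hk2 : 2 ≤ k := by omega
    have h1 := hDimE (-1) 1 k (Or.inr rfl) (Or.inl rfl) hk2
    have hd : (dt3 (2 * k) : ℤ) = 2 * 3 ^ (k - 2) * (3 ^ (k - 2) - 1) := by
      have h2 : dt3 (2 * k) = 2 * 3 ^ (k - 2) * (3 ^ (k - 2) - 1) := by
        unfold dt3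
        rw [if_neg (by omega), if_neg (by omega), if_pos (by omega)]
        have : 2 * k / 2 = k := by omega
        rw [this]
      rw [h2]
      push_cast [Nat.one_le_pow (k - 2) 3 (by norm_num)]
      ring
    have h3 : ((2 * Module.finrank ℂ (antiE3S k (-1) (- -1)) : ℕ) : ℤ) ≤ (dt3 (2 * k) : ℤ) := by
      rw [hd]
      push_cast
      rw [nine_pow] at h1
      linarith
    exact_mod_cast h3
  · intro k hk
    subst hk
    rw [w3_odd]
    have hk1 : 1 ≤ k := by omega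
    rcases Nat.lt_or_ge k 2 with h3 | h3
    · have hk' : k = 1 := by omega
      subst hk'
      have hd : dt3 (2 * 1 + 1) = 1 := by simp [dt3]
      rw [hd]
      have h1 := hDimO (1 * -1) (-1) 1 (Or.inr (by norm_num)) (Or.inr rfl) le_rfl
      have h2 : Module.finrank ℂ (antiO3S 1 (1 * -1) (-1)) = 1 := by
        have h4 : (2 : ℤ) * (Module.finrank ℂ (antiO3S 1 (1 * -1) (-1)) : ℤ) = 2 * 1 := by
          rw [h1]; norm_num
        have h5 : (Module.finrank ℂ (antiO3S 1 (1 * -1) (-1)) : ℤ) = 1 := by linarith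
        exact_mod_cast h5
      refine le_trans (Submodule.finrank_mono inf_le_left) ?_
      rw [h2]
    · have h1 := hKerO (1 * -1) (-1) k (Or.inr (by norm_num)) (Or.inr rfl) h3
      have hd : (dt3 (2 * k + 1) : ℤ) = 2 * 3 ^ (k - 2) * (3 ^ (k - 1) + 1) := by
        have h2 : dt3 (2 * k + 1) = 2 * 3 ^ (k - 2) * (3 ^ (k - 1) + 1) := by
          unfold dt3
          rw [if_neg (by omega), if_neg (by omega), if_neg (by omega)]
          have : (2 * k + 1) / 2 = k := by omega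
          rw [this]
        rw [h2]
        push_cast
        ring
      have h5 : (3 : ℤ) ^ (k - 1) = 3 * 3 ^ (k - 2) := by
        rw [← pow_succ']
        congr 1
        omega
      have h6 : (Module.finrank ℂ ↥(antiO3S k (1 * -1) (-1) ⊓ LinearMap.ker (Rh k)) : ℤ) ≤
          (dt3 (2 * k + 1) : ℤ) := by
        rw [hd]
        rw [h5] at h1 ⊢
        nlinarith
      exact_mod_cast h6

theorem hUBT3eof : UBT3eof := by
  intro hBal hE1 hDimE hO1 hDimO hKerO n hn
  have hs : Sg (-w3 n) := by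
    rcases Sg_w3 n with h | h
    · rw [h]; exact Or.inr rfl
    · rw [h, neg_neg]; exact Or.inl rfl
  refine gen hBal hE1 hO1 (-w3 n) 1 hs (Or.inl rfl) n _ hn ?_ ?_
  · intro k hk
    subst hk
    rw [w3_even, neg_neg]
    have hk2 : 2 ≤ k := by omega
    have h1 := hDimE 1 (-1) k (Or.inl rfl) (Or.inr rfl) hk2
    have hd : (dte3 (2 * k) : ℤ) = 2 * 9 ^ (k - 2) := by
      have h2 : dte3 (2 * k) = 2 * 9 ^ (k - 2) := by
        unfold dte3
        rw [if_neg (by omega), if_pos (by omega)]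
        have : 2 * k / 2 = k := by omega
        rw [this]
      rw [h2]
      push_cast
      ring
    have h3 : ((2 * Module.finrank ℂ (antiE3S k 1 (-1)) : ℕ) : ℤ) ≤ (dte3 (2 * k) : ℤ) := by
      rw [hd]
      push_cast
      rw [h1]
      linarith
    exact_mod_cast h3
  · intro k hk
    subst hk
    rw [w3_odd]
    have hk1 : 1 ≤ k := by omega
    rcases Nat.lt_or_ge k 2 with h3 | h3
    · have hk' : k = 1 := by omega
      subst hk'
      have hd : dte3 (2 * 1 + 1) = 0 := by simp [dte3]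
      rw [hd]
      have h1 := hDimO (-1 * 1) 1 1 (Or.inr (by norm_num)) (Or.inl rfl) le_rfl
      have h2 : Module.finrank ℂ (antiO3S 1 (-1 * 1) 1) = 0 := by
        have h4 : (2 : ℤ) * (Module.finrank ℂ (antiO3S 1 (-1 * 1) 1) : ℤ) = 0 := by
          rw [h1]; norm_num
        have h5 : (Module.finrank ℂ (antiO3S 1 (-1 * 1) 1) : ℤ) = 0 := by linarith
        exact_mod_cast h5
      refine le_trans (Submodule.finrank_mono inf_le_left) ?_
      rw [h2]
    · have h1 := hKerO (-1 * 1) 1 k (Or.inr (by norm_num)) (Or.inl rfl) h3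
      have hd : (dte3 (2 * k + 1) : ℤ) = 2 * 3 ^ (k - 2) * (3 ^ (k - 1) - 1) := by
        have h2 : dte3 (2 * k + 1) = 2 * 3 ^ (k - 2) * (3 ^ (k - 1) - 1) := by
          unfold dte3
          rw [if_neg (by omega), if_neg (by omega)]
          have : (2 * k + 1) / 2 = k := by omega
          rw [this]
        rw [h2]
        push_cast [Nat.one_le_pow (k - 1) 3 (by norm_num)]
        ring
      have h5 : (3 : ℤ) ^ (k - 1) = 3 * 3 ^ (k - 2) := by
        rw [← pow_succ']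
        congr 1
        omega
      have h6 : (Module.finrank ℂ ↥(antiO3S k (-1 * 1) 1 ⊓ LinearMap.ker (Rh k)) : ℤ) ≤
          (dte3 (2 * k + 1) : ℤ) := by
        rw [hd]
        rw [h5] at h1 ⊢
        nlinarith
      exact_mod_cast h6

end Pool.Agent.Helper76.T3
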