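import Pool.Agent.Helper14.T3.Defs
import Pool.Agent.Helper78.W3.StC

/-!
# Project T3: upper bound for new symbols of level `3^n`, general signs `W = -w`, `* = ε`

These are the modules BAL, E1, DIME, O1, RMAP, DIMO, DIMF, KERO, UB of project W3 (statements in
`Pool/Agent/Helper78/W3/StC.lean`, models `Pool/Agent/Helper*/W3/M_*.lean`, which is the case `w = ε = 1`)
with signs; `PlA`, `PlU`, `Edg`, `Trq` and `StFar` are not changed and are used as they are.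
Both families of twists are covered: odd characters (`ε = -1`, `w = w3 n`), even characters (`ε = 1`, `w = -w3 n`).
-/

set_option autoImplicit false

namespace Pool.Agent.Helper76.T3

open Pool.Agent.Helper14.CV (Homog EqC act Tl)
open Pool.Agent.Helper14.W3 Pool.Agent.Helper78.W3
open Pool.Agent.Helper76.TX (Sg)
open Pool.Agent.Helper14.T3

/-- BALS. Transport to the balanced form (model `Pool.Agent.Helper86.W3.hBal`, module `Helper86/W3/M_Bal`). -/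
def BalS3 : Prop := ∀ (w ε : ℤ) (k : ℕ) (G : ℤ → ℤ → ℂ), 1 ≤ k →
  (NewSym3S (2 * k) w ε G → BalE3S k w ε (act 1 0 0 (3 ^ k) G)) ∧
  (NewSym3S (2 * k + 1) w ε G → BalO3S k w ε (act 1 0 0 (3 ^ k) G)) ∧
  (Homog G → EqC (act 1 0 0 (3 ^ k) G) 0 → EqC G 0)

/-- E1S. Even exponent, `k ≥ 2` (model: module `Helper28/W3/M_E1`, statement `S3E1`). `h = hE k G`, `κ(g) = G(g2) - G(g1)`, `lE(p) = κ(φ p)`:
`S g S⁻¹` has coordinates `(-y, -x)` and `G∘S ≈ -w G`, so `h(-y,-x) = w h(x,y)` and `κ(-y,-x) = w κ(p B⁻¹C⁻¹)`; `* g *` has `(-x, -y)` and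
`G∘* ≈ ε G`: `h(-x,-y) = -ε h(x,y)`, `κ(-x,-y) = -ε κ(p A⁻¹)`. So `hE`, `lE` lie in `antiE3S k w (-ε)`. The injectivity part does not
use the signs. -/
def E1S3 : Prop := ∀ (w ε : ℤ) (k : ℕ) (G : ℤ → ℤ → ℂ), Sg w → Sg ε → 2 ≤ k → BalE3S k w ε G →
  hE k G ∈ antiE3S k w (-ε) ∧ lE k G ∈ antiE3S k w (-ε) ∧
  ((∀ x y, hE k G x y = 0) → (∀ x y, lE k G x y = 0) → EqC G 0)

/-- DIMES. Fixed points as in `S3DimE` (model `Helper34/W3/M_DimE`), `q = 3^(k-1) = 3a`, `k ≥ 2`: `H = Fin 4 × Fin 3 × Fin 3`, signs: identity `1`,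
`(x,y) ↦ (-y,-x)`: `σ`, `(x,y) ↦ (-x,-y)`: `τ`, `(x,y) ↦ (y,x)`: `σ τ`; the totals are `(4/9) q²`, `(2/3) q σ`, `0`, `(2/3) q σ τ`, divided by `4`. -/
def DimES3 : Prop := ∀ (σ τ : ℤ) (k : ℕ), Sg σ → Sg τ → 2 ≤ k →
  2 * (Module.finrank ℂ (antiE3S k σ τ) : ℤ) = 2 * 9 ^ (k - 2) + 3 ^ (k - 2) * (σ * (1 + τ))

/-- O1S. Odd exponent, `k ≥ 1` (model: module `Helper67/W3/M_O1`, statement `S3O1`). `f = edge3 0 1 0 0 1 G`: `W g W⁻¹`, `W = (0 -1; 3 0)`, has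
coordinates `(-y, -x)` and exchanges the ends, `G∘W ≈ -w G`: `f(-y,-x) = w f(x,y)`; `f(-x,-y) = ε f(x,y)`; so `f(y,x) = w ε f(x,y)`. The relation `R f = 0`
and the injectivity do not use the signs. -/
def O1S3 : Prop := ∀ (w ε : ℤ) (k : ℕ) (G : ℤ → ℤ → ℂ), Sg w → Sg ε → 1 ≤ k → BalO3S k w ε G →
  (fun (x : ZMod (3 ^ k)) (y : ZMod (3 ^ k)) => edge3 0 1 0 0 1 G x y) ∈ antiO3S k (w * ε) ε ∧
  Rh k (fun (x : ZMod (3 ^ k)) (y : ZMod (3 ^ k)) => edge3 0 1 0 0 1 G x y) = 0 ∧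
  ((∀ (x : ZMod (3 ^ k)) (y : ZMod (3 ^ k)), edge3 0 1 0 0 1 G x y = 0) → EqC G 0)

/-- RMAPS. `R` maps `antiO3S k η ε` onto `antiF3S k η ε` (`k ≥ 1`). Model `Helper37/W3/M_Rmap` (`S3Rmap`): `R κ f = κ R f`, `R ν f = -σ R f` for every `f`
(`κ` swap, `ν f (x,y) = f(-x,-y)`, `σ f (x,y) = f(-x-1, -y/(1+3y))`), so `R` maps `antiO3S k η ε` into `antiF3S k η ε`; conversely for `F` in `antiF3S`
the same `f0 = (1/9)(1 - τ²) ∑_{i<h} T^i F` satisfies `R f0 = F`, and `(f0 + ε ν f0 + η κ f0 + ε η κ ν f0)/4` lies in `antiO3S k η ε` and is mapped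
to `F`. -/
def RmapS3 : Prop := ∀ (η ε : ℤ) (k : ℕ), Sg η → Sg ε → 1 ≤ k →
  (antiO3S k η ε).map (Rh k) = antiF3S k η ε

/-- DIMOS. Fixed points as in `S3DimO` (model `Helper69/W3/M_DimO`), `Q = 3^k = 3a`, `k ≥ 1`: `((4/9) Q² + (2/3) Q η + 0 + (2/3) Q η ε)/4`. -/
def DimOS3 : Prop := ∀ (η ε : ℤ) (k : ℕ), Sg η → Sg ε → 1 ≤ k →
  2 * (Module.finrank ℂ (antiO3S k η ε) : ℤ) = 2 * 9 ^ (k - 1) + 3 ^ (k - 1) * (η * (1 + ε))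

/-- DIMFS. As in `S3DimF` (model `Helper71/W3/M_DimF`), `Q = 3^k = 3a`, `k ≥ 2`: the signs are `1` for `1, r, s`, `-ε` for `n1, n2, n3`, and `η` for the swap:
`(1/12)((4/9) Q² + η (3 (2/3) Q - ε (2/3) Q))`. -/
def DimFS3 : Prop := ∀ (η ε : ℤ) (k : ℕ), Sg η → Sg ε → 2 ≤ k →
  6 * (Module.finrank ℂ (antiF3S k η ε) : ℤ) = 2 * 9 ^ (k - 1) + 3 ^ (k - 1) * (η * (3 - ε))

/-- KEROS (from RMAPS, DIMOS, DIMFS by rank-nullity, model `Helper25/W3/M_KerO`; `ε² = 1`): `3 dim = 2 a (a + η ε)`. -/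
def KerOS3 : Prop := ∀ (η ε : ℤ) (k : ℕ), Sg η → Sg ε → 2 ≤ k →
  3 * (Module.finrank ℂ ↥(antiO3S k η ε ⊓ LinearMap.ker (Rh k)) : ℤ) =
    2 * (3 ^ (k - 1) * (3 ^ (k - 1) + η * ε))

/-- The bound for the dimension of the new symbols of level `3^n` with `W = -(-1)^n`, `* = 1` (even characters). -/
def dte3 (n : ℕ) : ℕ :=
  if n ≤ 3 then 0
  else if n % 2 = 0 then 2 * 9 ^ (n / 2 - 2)
  else 2 * 3 ^ (n / 2 - 2) * (3 ^ (n / 2 - 1) - 1)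

/-- UBT. The space of new symbols (`W = -w3 n`, `* = -1`) modulo constants has dimension at most `dt3 n`. -/
def UBT3 : Prop := ∀ n : ℕ, 3 ≤ n →
  ∃ Θ : NSS3 n (w3 n) (-1) →ₗ[ℂ] (Fin (dt3 n) → ℂ), ∀ G : NSS3 n (w3 n) (-1), Θ G = 0 → EqC (G : ℤ → ℤ → ℂ) 0

/-- UBTE. The space of new symbols (`W = w3 n`, `* = 1`) modulo constants has dimension at most `dte3 n`. -/
def UBT3e : Prop := ∀ n : ℕ, 3 ≤ n →
  ∃ Θ : NSS3 n (-w3 n) 1 →ₗ[ℂ] (Fin (dte3 n) → ℂ), ∀ G : NSS3 n (-w3 n) 1, Θ G = 0 → EqC (G : ℤ → ℤ → ℂ) 0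

/-- UBT from BALS, E1S, O1S, DIMES, DIMOS, KEROS (model `Helper24/W3/M_UBof`). `n = 2k ≥ 4`: `w = -1`, `ε = -1`, the map to `(hE, lE)` in two copies of
`antiE3S k (-1) 1`, `2 dim = 2 a² - 2 a`, `a = 3^(k-2)`, total `2 a (a - 1) = dt3 n`. `n = 2k+1`: `w = 1`, `ε = -1`, the map to `f` in
`antiO3S k (-1) (-1) ⊓ ker R`: `k ≥ 2`: `3 dim = 2 a (a + 1)`, `a = 3^(k-1)`, so `dim = dt3 n`; `k = 1` (`n = 3`): `dim (antiO3S 1 (-1) (-1)) = 1 = dt3 3` by DIMOS. -/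
def UBT3of : Prop := BalS3 → E1S3 → DimES3 → O1S3 → DimOS3 → KerOS3 → UBT3

/-- UBTE from the same. `n = 2k ≥ 4`: `w = 1`, `ε = 1`, two copies of `antiE3S k 1 (-1)`, dimension `9^(k-2)` each. `n = 2k+1`: `w = -1`, `ε = 1`:
`antiO3S k (-1) 1 ⊓ ker R`: `k ≥ 2`: `3 dim = 2 a (a - 1)`, `a = 3^(k-1)`; `k = 1`: `antiO3S 1 (-1) 1` has dimension `0` by DIMOS. -/
def UBT3eof : Prop := BalS3 → E1S3 → DimES3 → O1S3 → DimOS3 → KerOS3 → UBT3e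

/-- MON. The new symbols of the two families (sanity statement, not used): `dt3` and `dte3` for small `n`. -/
theorem dt3_small : dt3 3 = 1 ∧ dt3 4 = 0 ∧ dt3 5 = 8 ∧ dt3 6 = 12 ∧ dt3 7 = 60 ∧
    dte3 3 = 0 ∧ dte3 4 = 2 ∧ dte3 5 = 4 ∧ dte3 6 = 18 ∧ dte3 7 = 48 := by
  refine ⟨?_, ?_, ?_, ?_, ?_, ?_, ?_, ?_, ?_, ?_⟩ <;> norm_num [dt3, dte3]

end Pool.Agent.Helper76.T3
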